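import Pool.Agent.H31.FW.TargetsL
import Pool.Agent.H19.BG.L_CR

/-! `CR`: the Chinese remainder theorem for the complete sums. -/

set_option autoImplicit false

open NumberField

namespace Pool.Agent.H95.FW.CR

open Pool.Agent.H31.FW
open Pool.Agent.H29.TC (LC MC AC)
open Pool.Agent.H23.BG.CR (spl mc prim)

variable {R S T : Type} [CommRing R] [CommRing S] [CommRing T]

lemma ac (e : T ≃+* R × S) {θ : T → ℂ} (hθ : AC θ) : AC (fun x : R => θ (e.symm (x, 0))) where
  add x y := by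
    rw [← hθ.add, ← map_add, Prod.mk_add_mk, add_zero]
  norm x := hθ.norm _

lemma spa (e : T ≃+* R × S) {θ : T → ℂ} (hθ : AC θ) (x : R) (y : S) :
    θ (e.symm (x, y)) = θ (e.symm (x, 0)) * θ (e.symm (0, y)) := by
  rw [← hθ.add, ← map_add, Prod.mk_add_mk, add_zero, zero_add]

lemma sum [Fintype R] [Fintype S] [Fintype T] (e : T ≃+* R × S) {η θ : T → ℂ} (hη : MC η)
    (hθ : AC θ) (h : T) :
    cs η θ h = cs (fun x : R => η (e.symm (x, 1))) (fun x : R => θ (e.symm (x, 0))) (e h).1 *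
      cs (fun y : S => η (e.symm (1, y))) (fun y : S => θ (e.symm (0, y))) (e h).2 := by
  unfold cs
  have key : ∀ (x : R) (y : S), η (e.symm (x, y) + h) =
      η (e.symm (x + (e h).1, 1)) * η (e.symm (1, y + (e h).2)) := by
    intro x y
    rw [← spl e hη]
    congr 1
    apply e.injective
    rw [map_add, RingEquiv.apply_symm_apply, RingEquiv.apply_symm_apply]
    rfl
  rw [← Equiv.sum_comp e.symm.toEquiv, Fintype.sum_prod_type, Finset.sum_mul_sum]
  refine Finset.sum_congr rfl fun x _ => Finset.sum_congr rfl fun y _ => ?_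
  change η (e.symm (x, y) + h) * (starRingEnd ℂ) (η (e.symm (x, y))) * θ (e.symm (x, y)) = _
  rw [key, spl e hη x y, spa e hθ, map_mul]
  ring

theorem pf_CR : Q_CR := by
  intro K _ _ f g hf hg hfg _ _ _ η θ hη hθ
  have hco : IsCoprime f g := Ideal.isCoprime_iff_sup_eq.2 hfg
  let e := Ideal.quotientMulEquivQuotientProd f g hco
  let e' : (𝓞 K ⧸ f * g) ≃+* (𝓞 K ⧸ g) × (𝓞 K ⧸ f) := e.trans RingEquiv.prodComm
  have he : ∀ x : 𝓞 K, e (Ideal.Quotient.mk (f * g) x) =
      (Ideal.Quotient.mk f x, Ideal.Quotient.mk g x) := by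
    intro x
    refine Prod.ext ?_ ?_
    · rw [Ideal.quotientMulEquivQuotientProd_fst]; rfl
    · rw [Ideal.quotientMulEquivQuotientProd_snd]; rfl
  refine ⟨fun x => η (e.symm (x, 1)), fun x => θ (e.symm (x, 0)), fun y => η (e.symm (1, y)),
    fun y => θ (e.symm (0, y)), ⟨mc e hη.mc, ?_⟩, ac e hθ, ⟨mc e' hη.mc, ?_⟩, ac e' hθ, ?_⟩
  · intro w hw
    exact prim e hη.prim w hw
  · intro w hw
    exact prim e' hη.prim w hw
  · intro h
    rw [sum e hη.mc hθ]
    simp only [he]

end Pool.Agent.H95.FW.CR
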