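import Pool.Agent.H31.FW.TargetsL
import Pool.Agent.H81.THC.CSA

/-! `LO`: the complete sum modulo an odd power of an odd prime. -/

set_option autoImplicit false

open NumberField

namespace Pool.Agent.H95.FW.LO

open Pool.Agent.H31.FW
open Pool.Agent.H23.LB (Nf)
open Pool.Agent.H29.TC (LC MC AC)
open Pool.Agent.H81.THC (card_map_mul)

section D

variable {A : Type} [CommRing A] [IsDedekindDomain A]

/-- cancellation of an element with a known valuation -/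
lemma canc {P : Ideal A} (hP : P.IsPrime) (hP0 : P ≠ ⊥) {a b : A} {α n : ℕ}
    (ha : a ∉ P ^ (α + 1)) (hab : a * b ∈ P ^ (α + n)) : b ∈ P ^ n := by
  have hp : Prime P := Ideal.prime_of_isPrime hP0 hP
  have key : ∀ (x : A) (k : ℕ), x ∈ P ^ k ↔ (k : ℕ∞) ≤ emultiplicity P (Ideal.span {x}) := by
    intro x k
    rw [← pow_dvd_iff_le_emultiplicity, Ideal.dvd_span_singleton]
  rw [key] at ha hab ⊢
  rw [← Ideal.span_singleton_mul_span_singleton, emultiplicity_mul hp] at hab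
  rw [not_le] at ha
  have hα : emultiplicity P (Ideal.span {a}) ≤ (α : ℕ∞) :=
    ENat.lt_natCast_add_one_iff.1 (by exact_mod_cast ha)
  have h1 : ((α : ℕ∞) + n) ≤ α + emultiplicity P (Ideal.span {b}) := by
    refine le_trans ?_ (add_le_add_left hα _)
    exact_mod_cast hab
  exact (ENat.add_le_add_iff_left (by simp)).1 h1

lemma ex_not {P : Ideal A} (hP : P.IsPrime) (hP0 : P ≠ ⊥) (m : ℕ) :
    ∃ z ∈ P ^ m, z ∉ P ^ (m + 1) := by
  by_contra hcon
  push Not at hcon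
  have h1 : P ^ m ≤ P ^ (m + 1) := hcon
  have hp : Prime P := Ideal.prime_of_isPrime hP0 hP
  have h2 : P ^ (m + 1) ∣ P ^ m := Ideal.dvd_iff_le.2 h1
  have := (pow_dvd_pow_iff hp.ne_zero hp.not_isUnit).1 h2
  omega

end D

section M

variable {K : Type} [Field K] [NumberField K]

lemma cardq (P : Ideal (𝓞 K)) (k : ℕ) : Nat.card (𝓞 K ⧸ P ^ k) = Ideal.absNorm P ^ k := by
  rw [← Submodule.cardQuot_apply, ← Ideal.absNorm_apply, map_pow]

/-- the number of elements of the image of a power -/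
lemma cardI {P : Ideal (𝓞 K)} (hP0 : P ≠ ⊥) {e i : ℕ} (h : i ≤ e) :
    Nat.card ((P ^ i).map (Ideal.Quotient.mk (P ^ e))) = Ideal.absNorm P ^ (e - i) := by
  have h1 := card_map_mul (P ^ e) (P ^ i) (Ideal.pow_le_pow_right h)
  rw [cardq, cardq] at h1
  have h2 : Ideal.absNorm P ^ e = Ideal.absNorm P ^ (e - i) * Ideal.absNorm P ^ i := by
    rw [← pow_add, Nat.sub_add_cancel h]
  rw [h2] at h1
  have h3 : 0 < Ideal.absNorm P := Nat.pos_of_ne_zero (by rwa [Ne, Ideal.absNorm_eq_zero_iff])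
  exact Nat.eq_of_mul_eq_mul_right (pow_pos h3 i) h1

omit [NumberField K] in
lemma lift {P : Ideal (𝓞 K)} {e i : ℕ} {z : 𝓞 K ⧸ P ^ e}
    (hz : z ∈ (P ^ i).map (Ideal.Quotient.mk (P ^ e))) :
    ∃ Z ∈ P ^ i, Ideal.Quotient.mk (P ^ e) Z = z :=
  (Ideal.mem_map_iff_of_surjective _ Ideal.Quotient.mk_surjective).1 hz

omit [NumberField K] in
lemma mk0 {P : Ideal (𝓞 K)} {e k : ℕ} {x : 𝓞 K} (hx : x ∈ P ^ k) (hk : e ≤ k) :
    Ideal.Quotient.mk (P ^ e) x = 0 :=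
  Ideal.Quotient.eq_zero_iff_mem.2 (Ideal.pow_le_pow_right hk hx)

theorem main (hLG : Q_LG) (hCN : Q_CN) (P : Ideal (𝓞 K)) (hP : P.IsPrime) (hP0 : P ≠ ⊥)
    (h2 : (2 : 𝓞 K) ∉ P) (s m e : ℕ) (he : e = s + (2 * m + 1)) (hs : 1 ≤ s) (hm : 1 ≤ m)
    [Fintype (𝓞 K ⧸ P ^ e)] (η θ : 𝓞 K ⧸ P ^ e → ℂ) (hη : LC (P ^ e) η) (hθ : AC θ) (h : 𝓞 K)
    (hh : h ∈ P ^ s) (hh1 : h ∉ P ^ (s + 1)) :
    ‖cs η θ (Ideal.Quotient.mk (P ^ e) h)‖ ^ 2 * Nf K P ≤ 4 * Nf K P ^ (2 * (m + 1 + s)) := by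
  have hmax : P.IsMaximal := hP.isMaximal hP0
  have he0 : e ≠ 0 := by omega
  have hu : ∀ x : 𝓞 K, IsUnit (Ideal.Quotient.mk (P ^ e) x) ↔ x ∉ P := fun x =>
    Ideal.Quotient.isUnit_mk_pow_iff_notMem P he0
  have hN0 : 0 ≤ Nf K P := Nat.cast_nonneg _
  have hhP : h ∈ P := Ideal.pow_le_self (by omega) hh
  have key := hLG (𝓞 K ⧸ P ^ e) ((P ^ m).map (Ideal.Quotient.mk (P ^ e)))
    ((P ^ (m + 1)).map (Ideal.Quotient.mk (P ^ e))) η θ (Ideal.Quotient.mk (P ^ e) h)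
    (Ideal.absNorm P) hη.mc hη.prim hθ ?_ ?_ ?_ ?_ ?_ ?_ ?_ ?_
  · rcases key with h0 | ⟨y, hy, hyh, hle⟩
    · rw [h0, norm_zero]
      have : (0 : ℝ) ≤ 4 * Nf K P ^ (2 * (m + 1 + s)) := by positivity
      simpa using this
    · obtain ⟨Y, rfl⟩ := Ideal.Quotient.mk_surjective y
      rw [hu] at hy
      have hY : 2 * Y + h ∉ P ^ (0 + 1) := by
        rw [zero_add, pow_one]
        intro h3
        have h4 : 2 * Y ∈ P := by
          have := P.sub_mem h3 hhP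
          rwa [add_sub_cancel_right] at this
        rcases hP.mem_or_mem h4 with h5 | h5
        · exact h2 h5
        · exact hy h5
      have hc := (hCN K P hP hP0 e (m + 1) s 0 h Y hh hh1).1 hY
      refine hle.trans ?_
      refine (pow_le_pow_left₀ (Nat.cast_nonneg _) hc 2).trans (le_of_eq ?_)
      rw [mul_pow, ← pow_mul, zero_add, mul_comm (m + 1 + s) 2]
      norm_num
  · have : (2 : 𝓞 K ⧸ P ^ e) = Ideal.Quotient.mk (P ^ e) 2 := by rw [map_ofNat]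
    rw [this, hu]
    exact h2
  · exact Ideal.map_mono (Ideal.pow_le_pow_right (by omega))
  · intro z hz
    obtain ⟨Z, hZ, rfl⟩ := lift hz
    refine ⟨e, ?_⟩
    rw [← map_pow]
    refine mk0 (k := m * e) ?_ ?_
    · rw [pow_mul]
      exact Ideal.pow_mem_pow hZ e
    · nlinarith
  · intro z hz z' hz'
    obtain ⟨Z, hZ, rfl⟩ := lift hz
    obtain ⟨Z', hZ', rfl⟩ := lift hz'
    rw [← map_pow, ← map_mul, ← map_mul]
    refine mk0 (k := s * 2 + (m + m)) ?_ (by omega)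
    rw [pow_add, pow_add, pow_mul]
    exact Ideal.mul_mem_mul (Ideal.pow_mem_pow hh 2) (Ideal.mul_mem_mul hZ hZ')
  · intro z hz z' hz' z'' hz''
    obtain ⟨Z, hZ, rfl⟩ := lift hz
    obtain ⟨Z', hZ', rfl⟩ := lift hz'
    obtain ⟨Z'', hZ'', rfl⟩ := lift hz''
    rw [← map_mul, ← map_mul, ← map_mul]
    refine mk0 (k := s + (m + m + m)) ?_ (by omega)
    rw [pow_add, pow_add, pow_add]
    exact Ideal.mul_mem_mul hh (Ideal.mul_mem_mul (Ideal.mul_mem_mul hZ hZ') hZ'')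
  · intro z hz z' hz'
    obtain ⟨Z, hZ, rfl⟩ := lift hz
    obtain ⟨Z', hZ', rfl⟩ := lift hz'
    rw [← map_mul, ← map_mul]
    refine mk0 (k := s + ((m + 1) + m)) ?_ (by omega)
    rw [pow_add, pow_add P (m + 1)]
    exact Ideal.mul_mem_mul hh (Ideal.mul_mem_mul hZ hZ')
  · intro z hz hz0
    obtain ⟨Z, hZ, rfl⟩ := lift hz
    obtain ⟨Z', hZ', hZ1⟩ := ex_not hP hP0 m
    have h3 := hz0 _ (Ideal.mem_map_of_mem (Ideal.Quotient.mk (P ^ e)) hZ')
    rw [← map_mul, ← map_mul, Ideal.Quotient.eq_zero_iff_mem, he] at h3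
    have h4 : Z' * Z ∈ P ^ (m + (m + 1)) := by
      have := canc hP hP0 (n := 2 * m + 1) hh1 h3
      rw [mul_comm Z' Z]
      rwa [show m + (m + 1) = 2 * m + 1 by ring]
    exact Ideal.mem_map_of_mem _ (canc hP hP0 hZ1 h4)
  · rw [cardI hP0 (by omega), cardI hP0 (by omega), ← pow_succ']
    congr 1
    omega

theorem pf_LO (hLG : Q_LG) (hCN : Q_CN) : Q_LO := by
  intro K _ _ P hP hP0 h2 s m hs hm _ η θ hη hθ h hh hh1
  exact main hLG hCN P hP hP0 h2 s m _ rfl hs hm η θ hη hθ h hh hh1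

end M

end Pool.Agent.H95.FW.LO
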